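import Pool.Agent.Helper79_MT4.Stmt

/-! RK: traces of products of rank one endomorphisms. -/

set_option autoImplicit false

namespace Pool.Agent.MT4.H26

open Module LinearMap

universe u v

section
variable {K : Type u} {V : Type v} [Field K] [AddCommGroup V] [Module K V]

theorem sm_mul (φ : V →ₗ[K] K) (x : V) (X : End K V) :
    φ.smulRight x * X = (φ ∘ₗ X).smulRight x := by
  ext y
  rfl

theorem mul_sm (φ : V →ₗ[K] K) (x : V) (X : End K V) :
    X * φ.smulRight x = φ.smulRight (X x) := by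
  ext y
  simp

theorem sm_sm (φ χ : V →ₗ[K] K) (x y : V) :
    φ.smulRight x * χ.smulRight y = φ y • χ.smulRight x := by
  ext z
  simp [smul_smul, mul_comm]

end

theorem rk : RkStmt.{u, v} := by
  intro K V _ _ _ _ A B C hA hB hC
  obtain ⟨x, φ, -, -, rfl⟩ := hA
  obtain ⟨y, χ, -, -, rfl⟩ := hB
  obtain ⟨z, ξ, -, -, rfl⟩ := hC
  refine ⟨?_, ?_, ?_, ?_⟩
  · intro X
    rw [sm_mul, sm_sm, trace_smulRight]
  · simp only [sm_sm, smul_mul_assoc, smul_smul, map_smul, trace_smulRight, smul_eq_mul]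
    ring
  · intro X Y
    have e1 : φ.smulRight x * X * χ.smulRight y * Y = φ (X y) • (χ ∘ₗ Y).smulRight x := by
      rw [sm_mul, sm_sm, smul_mul_assoc, sm_mul]
      rfl
    have e2 : φ.smulRight x * X * χ.smulRight y = φ (X y) • χ.smulRight x := by
      rw [sm_mul, sm_sm]
      rfl
    have e3 : φ.smulRight x * χ.smulRight y * Y = φ y • (χ ∘ₗ Y).smulRight x := by
      rw [sm_sm, smul_mul_assoc, sm_mul]
    rw [e1, e2, e3, sm_sm]
    simp only [map_smul, trace_smulRight, smul_eq_mul, LinearMap.comp_apply]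
    ring
  · intro a b h
    simp only [LinearMap.smulRight_apply] at h ⊢
    have h1 : φ a ≠ 0 := by
      intro h0
      rw [h0, zero_smul] at h
      exact h rfl
    exact ⟨φ b / φ a, by rw [smul_smul, div_mul_cancel₀ _ h1]⟩

end Pool.Agent.MT4.H26
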