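import Pool.Agent.Helper26_MT4.Rk

/-! SL3: all transvections are in `L`. -/

set_option autoImplicit false

namespace Pool.Agent.MT4.H26

open Module LinearMap

universe u v

section
variable {K : Type u} {W : Type v} [Field K] [CharZero K] [AddCommGroup W] [Module K W]
  {L : Submodule K (End K W)}

theorem conj_mem (hL : ∀ X ∈ L, ∀ Y ∈ L, X * Y - Y * X ∈ L) {X Y : End K W} (hX : X ∈ L)
    (hY : Y ∈ L) (h2 : X * X = 0) : (1 + X) * Y * (1 - X) ∈ L := by
  have h1 : X * Y - Y * X ∈ L := hL X hX Y hY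
  have h3 : X * (X * Y - Y * X) - (X * Y - Y * X) * X ∈ L := hL X hX _ h1
  have e : X * (X * Y - Y * X) - (X * Y - Y * X) * X = (-2 : K) • (X * Y * X) := by
    have : X * (X * Y - Y * X) - (X * Y - Y * X) * X =
        X * X * Y - X * Y * X - X * Y * X + Y * (X * X) := by noncomm_ring
    rw [this, h2, zero_mul, mul_zero, neg_smul, two_smul]
    abel
  rw [e] at h3
  have h4 : X * Y * X ∈ L := by
    have := L.smul_mem ((-2 : K)⁻¹) h3
    rwa [smul_smul, inv_mul_cancel₀ (by norm_num), one_smul] at this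
  have e2 : (1 + X) * Y * (1 - X) = Y + (X * Y - Y * X) - X * Y * X := by noncomm_ring
  rw [e2]
  exact L.sub_mem (L.add_mem hY h1) h4

theorem smul_good {z : W} (hz : ∀ θ : W →ₗ[K] K, θ z = 0 → θ.smulRight z ∈ L) (c : K) :
    ∀ θ : W →ₗ[K] K, θ (c • z) = 0 → θ.smulRight (c • z) ∈ L := by
  intro θ h
  have e : θ.smulRight (c • z) = c • θ.smulRight z := by
    ext t
    simp [smul_smul, mul_comm]
  rw [e]
  by_cases hc : c = 0
  · rw [hc, zero_smul]
    exact L.zero_mem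
  · apply L.smul_mem
    apply hz
    rw [map_smul, smul_eq_mul] at h
    exact (mul_eq_zero.1 h).resolve_left hc

theorem add_good (hL : ∀ X ∈ L, ∀ Y ∈ L, X * Y - Y * X ∈ L) {z₁ z₂ : W}
    (h₁ : ∀ θ : W →ₗ[K] K, θ z₁ = 0 → θ.smulRight z₁ ∈ L)
    (h₂ : ∀ θ : W →ₗ[K] K, θ z₂ = 0 → θ.smulRight z₂ ∈ L) :
    ∀ θ : W →ₗ[K] K, θ (z₁ + z₂) = 0 → θ.smulRight (z₁ + z₂) ∈ L := by
  by_cases h : z₁ ∈ Submodule.span K {z₂}
  · obtain ⟨c, rfl⟩ := Submodule.mem_span_singleton.1 h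
    have : c • z₂ + z₂ = (c + 1) • z₂ := by rw [add_smul, one_smul]
    rw [this]
    exact smul_good h₂ _
  · intro θ hθ
    obtain ⟨ξ₀, hξ₀, hξ₁⟩ := Submodule.exists_dual_map_eq_bot_of_notMem h inferInstance
    have hz2 : ξ₀ z₂ = 0 := by
      have : ξ₀ z₂ ∈ (Submodule.span K {z₂}).map ξ₀ :=
        ⟨z₂, Submodule.mem_span_singleton_self z₂, rfl⟩
      rw [hξ₁] at this
      exact this
    set ξ : W →ₗ[K] K := (ξ₀ z₁)⁻¹ • ξ₀ with hξ
    have x1 : ξ z₁ = 1 := by
      rw [hξ, LinearMap.smul_apply, smul_eq_mul, inv_mul_cancel₀ hξ₀]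
    have x2 : ξ z₂ = 0 := by
      rw [hξ, LinearMap.smul_apply, hz2, smul_zero]
    set X : End K W := ξ.smulRight z₂ with hX
    have hXL : X ∈ L := h₂ ξ x2
    have hXX : X * X = 0 := by
      rw [hX, sm_sm, x2, zero_smul]
    have hY : (θ ∘ₗ (1 + X)).smulRight z₁ ∈ L := by
      apply h₁
      show θ (z₁ + ξ z₁ • z₂) = 0
      rw [x1, one_smul, hθ]
    have := conj_mem hL hXL hY hXX
    rw [mul_sm, sm_mul] at this
    have e1 : (1 + X) z₁ = z₁ + z₂ := by
      show z₁ + ξ z₁ • z₂ = z₁ + z₂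
      rw [x1, one_smul]
    have e2 : (θ ∘ₗ (1 + X)) ∘ₗ (1 - X) = θ := by
      have : (1 + X) * (1 - X) = 1 := by
        have : (1 + X) * (1 - X) = 1 - X * X := by noncomm_ring
        rw [this, hXX, sub_zero]
      rw [LinearMap.comp_assoc]
      have h5 : (1 + X) ∘ₗ (1 - X) = LinearMap.id := this
      rw [h5, LinearMap.comp_id]
    rw [e1, e2] at this
    exact this

theorem im_good (hL : ∀ X ∈ L, ∀ Y ∈ L, X * Y - Y * X ∈ L) {u w : W} {l : W →ₗ[K] K}
    (hul : l.smulRight u ∈ L) (hlu : l u = 0)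
    (hw : ∀ θ : W →ₗ[K] K, θ w = 0 → θ.smulRight w ∈ L) (hlw : l w ≠ 0) :
    ∀ θ : W →ₗ[K] K, θ u = 0 → θ.smulRight u ∈ L := by
  intro θ hθ
  set θ₀ : W →ₗ[K] K := θ - (θ w / l w) • l with h0
  have a1 : θ₀ w = 0 := by
    rw [h0, LinearMap.sub_apply, LinearMap.smul_apply, smul_eq_mul, div_mul_cancel₀ _ hlw, sub_self]
  have a2 : θ₀ u = 0 := by
    rw [h0, LinearMap.sub_apply, LinearMap.smul_apply, hlu, smul_zero, sub_zero, hθ]
  have h1 := hL _ hul _ (hw θ₀ a1)
  rw [sm_sm, sm_sm, a2, zero_smul, sub_zero] at h1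
  have h2 : θ₀.smulRight u ∈ L := by
    have := L.smul_mem (l w)⁻¹ h1
    rwa [smul_smul, inv_mul_cancel₀ hlw, one_smul] at this
  have h3 : θ.smulRight u = θ₀.smulRight u + (θ w / l w) • l.smulRight u := by
    ext t
    simp [h0, sub_smul, smul_smul]
  rw [h3]
  exact L.add_mem h2 (L.smul_mem _ hul)

end

theorem sl3 : Sl3Stmt.{u, v} := by
  intro K W _ _ _ _ _ L O hF y hy hyg
  set A : Submodule K W :=
    { carrier := {z | ∀ θ : W →ₗ[K] K, θ z = 0 → θ.smulRight z ∈ L}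
      add_mem' := fun {a b} ha hb => add_good hF.br ha hb
      zero_mem' := by
        intro θ _
        have : θ.smulRight (0 : W) = 0 := by ext t; simp
        rw [this]
        exact L.zero_mem
      smul_mem' := fun c z hz => smul_good hz c } with hA
  suffices hT : A = ⊤ by
    intro z θ
    have : z ∈ A := by rw [hT]; trivial
    exact this θ
  by_contra hne
  obtain ⟨ℓ, hℓ, hker⟩ := Submodule.exists_le_ker_of_lt_top A (lt_top_iff_ne_top.2 hne)
  obtain ⟨M₀, hM₀, hM₀y⟩ : ∃ M ∈ O, M y ≠ 0 := by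
    by_contra h
    push Not at h
    exact hy (hF.fix y h)
  obtain ⟨θ₁, hθ₁⟩ : ∃ θ₁ : W →ₗ[K] K, θ₁ (M₀ y) ≠ 0 := by
    by_contra h
    push Not at h
    exact hM₀y ((Module.forall_dual_apply_eq_zero_iff K _).1 h)
  have key : ∀ M ∈ O, M y ≠ 0 → ∀ x, ℓ (M x) = 0 := by
    intro M hM hMy x
    obtain ⟨u, l, hu, hl, rfl⟩ := hF.rk M hM
    have h1 := hF.sub _ hM
    have h2 := hF.sq _ hM
    have hly : l y ≠ 0 := by
      intro h0
      apply hMy
      rw [LinearMap.smulRight_apply, h0, zero_smul]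
    have hlu : l u = 0 := by
      rw [sm_sm] at h2
      rcases smul_eq_zero.1 h2 with h | h
      · exact h
      · exfalso
        have := congrArg (fun f : End K W => f y) h
        simp only [LinearMap.smulRight_apply, LinearMap.zero_apply] at this
        rcases smul_eq_zero.1 this with h | h
        · exact hly h
        · exact hu h
    have hu' : u ∈ A := im_good hF.br h1 hlu hyg hly
    have : ℓ u = 0 := hker hu'
    rw [LinearMap.smulRight_apply, map_smul, this, smul_zero]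
  apply hℓ
  apply hF.full ℓ
  intro M hM x
  have ev : ∀ t : W, ∃ F : End K W →ₗ[K] W, ∀ M, F M = M t := fun t =>
    ⟨LinearMap.applyₗ t, fun M => rfl⟩
  obtain ⟨Ey, hEy⟩ := ev y
  obtain ⟨Ex, hEx⟩ := ev x
  have := hF.irr (θ₁ ∘ₗ Ey) (ℓ ∘ₗ Ex) (ℓ ∘ₗ Ex) ?_
  · rcases this with h | h | h
    · exfalso
      have := h M₀ hM₀
      rw [LinearMap.comp_apply, hEy] at this
      exact hθ₁ this
    · have := h M hM
      rwa [LinearMap.comp_apply, hEx] at this
    · have := h M hM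
      rwa [LinearMap.comp_apply, hEx] at this
  · intro M' hM'
    simp only [LinearMap.comp_apply, hEy, hEx]
    by_cases h : M' y = 0
    · rw [h, map_zero, zero_mul, zero_mul]
    · rw [key M' hM' h x, mul_zero]

end Pool.Agent.MT4.H26
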